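import Pool.Agent.Q260.GM.DefsA
import Pool.Agent.Y749.Rig.Ana
import Pool.Agent.Y749.Rig.FFb

/-!
The transform of the pair correlation measure at `ra a` (lemma job J9a of helper260).
-/

set_option autoImplicit false

namespace Pool.Agent.Q96.GM

open Pool.Agent.Q260.GM Pool.Agent.Y749.Rig MeasureTheory Filter Topology Set

/-- the function with transform `ra a` -/
noncomputable def pe (a α : ℝ) : ℝ := Real.exp (-(2 * a * |α|))

lemma pe_cont (a : ℝ) : Continuous (pe a) := by unfold pe; fun_prop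

lemma pe_even (a x : ℝ) : pe a (-x) = pe a x := by unfold pe; rw [abs_neg]

lemma pe_qd {a : ℝ} (ha : 0 < a) : QD (pe a) := by
  refine ⟨1 + 1 / (2 * a ^ 2), fun x => ?_⟩
  unfold pe
  rw [abs_of_pos (Real.exp_pos _), Real.exp_neg, inv_eq_one_div,
    div_le_div_iff₀ (Real.exp_pos _) (by positivity)]
  have h1 := Real.quadratic_le_exp_of_nonneg (show 0 ≤ 2 * a * |x| by positivity)
  have h2 : (2 * a * |x|) ^ 2 / 2 = 2 * a ^ 2 * x ^ 2 := by
    rw [mul_pow, sq_abs]; ring
  rw [h2] at h1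
  have h3 : 1 + 2 * a ^ 2 * x ^ 2 ≤ Real.exp (2 * a * |x|) := by
    have : 0 ≤ 2 * a * |x| := by positivity
    linarith
  have h4 : 1 * (1 + x ^ 2) ≤ (1 + 1 / (2 * a ^ 2)) * (1 + 2 * a ^ 2 * x ^ 2) := by
    have e : (1 + 1 / (2 * a ^ 2)) * (1 + 2 * a ^ 2 * x ^ 2) =
        1 + x ^ 2 + 1 / (2 * a ^ 2) + 2 * a ^ 2 * x ^ 2 := by
      field_simp
      ring
    rw [e]
    have : 0 ≤ 1 / (2 * a ^ 2) := by positivity
    nlinarith [mul_nonneg (sq_nonneg a) (sq_nonneg x)]
  exact h4.trans (mul_le_mul_of_nonneg_left h3 (by positivity))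

lemma pe_int {a : ℝ} (ha : 0 < a) : Integrable (pe a) := qd_int (pe_cont a) (pe_qd ha)

/-- half of the transform -/
lemma half_transform {a : ℝ} (ha : 0 < a) (x : ℝ) :
    ∫ α in Ioi (0 : ℝ), Real.exp (-(2 * a * α)) * Real.cos (2 * Real.pi * α * x) =
      2 * a / (4 * a ^ 2 + 4 * Real.pi ^ 2 * x ^ 2) := by
  set z : ℂ := ((-(2 * a) : ℝ) : ℂ) + ((2 * Real.pi * x : ℝ) : ℂ) * Complex.I with hz
  have hre : z.re < 0 := by
    rw [hz]; simp [ha]
  have h1 := integral_exp_mul_complex_Ioi hre 0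
  have h2 : ∀ α : ℝ, (Complex.exp (z * α)).re =
      Real.exp (-(2 * a * α)) * Real.cos (2 * Real.pi * α * x) := by
    intro α
    rw [Complex.exp_re]
    have e1 : (z * α).re = -(2 * a * α) := by rw [hz]; simp
    have e2 : (z * α).im = 2 * Real.pi * α * x := by rw [hz]; simp; ring
    rw [e1, e2]
  have hi := integrableOn_exp_mul_complex_Ioi hre 0
  have h3 : ∫ α in Ioi (0 : ℝ), Real.exp (-(2 * a * α)) * Real.cos (2 * Real.pi * α * x) =
      (∫ α in Ioi (0 : ℝ), Complex.exp (z * α)).re := by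
    rw [← RCLike.re_eq_complex_re, ← integral_re hi]
    refine setIntegral_congr_fun measurableSet_Ioi fun α _ => ?_
    rw [RCLike.re_eq_complex_re, h2]
  rw [h3, h1]
  have h4 : (-Complex.exp (z * ((0 : ℝ) : ℂ)) / z).re = -(z⁻¹).re := by
    rw [Complex.ofReal_zero, mul_zero, Complex.exp_zero, neg_div, one_div, Complex.neg_re]
  rw [h4, Complex.inv_re]
  have e1 : z.re = -(2 * a) := by rw [hz]; simp
  have e2 : Complex.normSq z = 4 * a ^ 2 + 4 * Real.pi ^ 2 * x ^ 2 := by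
    rw [Complex.normSq_apply, hz]; simp; ring
  rw [e1, e2]
  ring

lemma fl_pe {a : ℝ} (ha : 0 < a) (x : ℝ) : fl (pe a) x = ra a x := by
  unfold fl
  have h1 : ∀ α : ℝ, pe a α * Real.cos (2 * Real.pi * α * x) =
      (fun t => Real.exp (-(2 * a * t)) * Real.cos (2 * Real.pi * t * x)) |α| := by
    intro α
    simp only [pe]
    congr 1
    rcases abs_choice α with h | h
    · rw [h]
    · rw [h]
      rw [show 2 * Real.pi * -α * x = -(2 * Real.pi * α * x) by ring, Real.cos_neg]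
  simp_rw [h1]
  rw [integral_comp_abs (f := fun t => Real.exp (-(2 * a * t)) * Real.cos (2 * Real.pi * t * x)),
    half_transform ha]
  unfold ra
  ring

lemma ra_cont {a : ℝ} (ha : 0 < a) : Continuous (ra a) := by
  have : ra a = fl (pe a) := funext fun x => (fl_pe ha x).symm
  rw [this]
  exact fl_cont (pe_int ha)

lemma ra_eq {a : ℝ} (ha : 0 < a) (x : ℝ) : ra a x = (1 / a) * (1 + (Real.pi / a * x) ^ 2)⁻¹ := by
  unfold ra
  have h1 : 4 * a ^ 2 + 4 * Real.pi ^ 2 * x ^ 2 ≠ 0 := by positivity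
  have h2 : 1 + (Real.pi / a * x) ^ 2 ≠ 0 := by positivity
  field_simp

lemma ra_nonneg {a : ℝ} (ha : 0 < a) (x : ℝ) : 0 ≤ ra a x := by unfold ra; positivity

lemma ra_qd {a : ℝ} (ha : 0 < a) : QD (ra a) := by
  refine ⟨1 / a + a, fun x => ?_⟩
  rw [abs_of_nonneg (ra_nonneg ha x)]
  unfold ra
  have hpi : 3 < Real.pi := Real.pi_gt_three
  rw [div_le_div_iff₀ (by positivity) (by positivity)]
  have h1 : (1 : ℝ) ≤ Real.pi ^ 2 := by nlinarith
  have h2 : a * x ^ 2 ≤ a * (Real.pi ^ 2 * x ^ 2) := by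
    have : x ^ 2 ≤ Real.pi ^ 2 * x ^ 2 := by nlinarith [sq_nonneg x]
    exact mul_le_mul_of_nonneg_left this ha.le
  have h3 : (1 / a + a) * (4 * a ^ 2 + 4 * Real.pi ^ 2 * x ^ 2) =
      4 * a + 4 * (1 / a) * (Real.pi ^ 2 * x ^ 2) + 4 * a ^ 3 + 4 * a * (Real.pi ^ 2 * x ^ 2) := by
    field_simp
    ring
  rw [h3]
  have h4 : 0 ≤ 4 * (1 / a) * (Real.pi ^ 2 * x ^ 2) := by positivity
  have h5 : 0 ≤ 4 * a ^ 3 := by positivity
  nlinarith

lemma integral_ra {a : ℝ} (ha : 0 < a) : ∫ x, ra a x = 1 := by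
  have h1 : ∀ x, ra a x = (fun y => (1 / a) * (1 + y ^ 2)⁻¹) (Real.pi / a * x) := fun x => ra_eq ha x
  simp_rw [h1]
  rw [Measure.integral_comp_mul_left (fun y => (1 / a) * (1 + y ^ 2)⁻¹), integral_const_mul,
    integral_univ_inv_one_add_sq, smul_eq_mul, abs_of_pos (by positivity)]
  field_simp

/-- the part of the pair correlation form factor -/
lemma integral_mn_pe {a : ℝ} (ha : 0 < a) : ∫ α, mn α * pe a α = 2 * MM a := by
  have h1 : ∀ α : ℝ, mn α * pe a α = (fun t => Real.exp (-(2 * a * t)) * min t 1) |α| := by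
    intro α
    simp only [mn, pe]
    ring
  simp_rw [h1]
  rw [integral_comp_abs (f := fun t => Real.exp (-(2 * a * t)) * min t 1)]
  rfl

/-- **J9a.** -/
theorem mG_ra {a : ℝ} (ha : 0 < a) : ∫ x, ra a x ∂mG = 1 + 2 * MM a := by
  rw [mG_integral (ra_cont ha) (ra_qd ha)]
  have hra : ∀ x, ra a x = fl (pe a) x := fun x => (fl_pe ha x).symm
  have h1 : ∫ x, fl (pe a) x * fl (tr 1) x = ∫ x, pe a x * tr 1 x := by
    rw [parseval (pe_int ha) (fl_int (adm_tr one_pos)) (pe_even a) fun x => fl_even x]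
    refine integral_congr_ae (ae_of_all _ fun x => ?_)
    simp only
    rw [inv_four (adm_tr one_pos)]
  have h2 : ∫ x, ra a x * FF x = ∫ x, (ra a x - fl (pe a) x * fl (tr 1) x) := by
    refine integral_congr_ae ?_
    have : ∀ᵐ x : ℝ, x ≠ 0 := by
      rw [ae_iff]
      simp
    filter_upwards [this] with x hx
    rw [fl_tr one_pos hx, FF, mul_one, hra]
    ring
  have i1 : Integrable (ra a) := qd_int (ra_cont ha) (ra_qd ha)
  have i2 : Integrable fun x => fl (pe a) x * fl (tr 1) x := by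
    obtain ⟨B, hB⟩ := fl_bound (adm_tr one_pos)
    have hc := fl_cont (tr_int one_pos)
    have hB0 : 0 ≤ B := by
      have := (abs_nonneg _).trans (hB 0)
      simpa using this
    have i1' : Integrable (fl (pe a)) := i1.congr (ae_of_all _ fun x => hra x)
    refine i1'.mul_bdd (c := B) hc.aestronglyMeasurable (ae_of_all _ fun x => ?_)
    rw [Real.norm_eq_abs]
    refine (hB x).trans ?_
    apply div_le_self hB0
    nlinarith [sq_nonneg x]
  rw [h2, integral_sub i1 i2, integral_ra ha, h1]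
  have h3 : ∀ x, pe a x * tr 1 x = pe a x - mn x * pe a x := by
    intro x
    unfold tr mn
    rw [div_one, div_one]
    rcases le_or_gt 1 |x| with hx | hx
    · rw [max_eq_left (by linarith), min_eq_right hx]; ring
    · rw [max_eq_right (by linarith), min_eq_left hx.le]
      ring
  have i3 : Integrable fun x => mn x * pe a x := by
    refine (pe_int ha).bdd_mul (c := 1) mn_cont.aestronglyMeasurable (ae_of_all _ fun x => ?_)
    rw [Real.norm_eq_abs, abs_of_nonneg (mn_nonneg x)]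
    exact mn_le x
  simp_rw [h3]
  rw [integral_sub (pe_int ha) i3, integral_mn_pe ha]
  have h4 : ra a 0 = ∫ x, pe a x := by
    rw [hra]; unfold fl; simp
  rw [h4]
  ring

end Pool.Agent.Q96.GM
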